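import Pool.Agent.H916M.Even

/-!
# The regulator of Fermat varieties in the range `i = 2j`: a parity criterion

For a smooth projective variety without odd cohomology the regulator in the range `i = 2j` is the
cycle class map onto the Hodge classes. For Fermat varieties of degree `m`, with `m` one of the
degrees below, a Hodge character belongs to the family generated by the standard characters, whose
eigenlines are algebraic, if and only if for every odd prime `l` dividing `m` it has an even number of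
entries of `l`-power order.
-/

namespace Pool.Agent.Results.MP_b2b689_ag.FermatParities

open Pool.Agent.H916R2 Pool.Agent.H916K Pool.Agent.H916M

/-- The degrees: `m = p ^ a * q ^ b` or `m = 2 * p ^ a * q ^ b`, `p`, `q` different odd primes which are
not both squares modulo each other; or `m = 2 ^ a * q ^ b` with `a ≥ 2` and `q` an odd prime modulo
which `2` is not a square; or `m = p ^ a * q ^ b * r ^ d` or `m = 2 * p ^ a * q ^ b * r ^ d` with primes
`p`, `q`, `r` such that `q` is not a square modulo `p`, `r` is not a square modulo `q` and `p` is not a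
square modulo `r`, while one of the three other residues is a square. -/
def ParityDegree (m : ℕ) : Prop :=
  (∃ p q a b : ℕ, p.Prime ∧ q.Prime ∧ p ≠ 2 ∧ q ≠ 2 ∧ p ≠ q ∧
    ¬ (IsSquare ((q : ℕ) : ZMod p) ∧ IsSquare ((p : ℕ) : ZMod q)) ∧ 0 < a ∧ 0 < b ∧
    (m = p ^ a * q ^ b ∨ m = 2 * (p ^ a * q ^ b))) ∨
  (∃ q a b : ℕ, q.Prime ∧ q ≠ 2 ∧ ¬ IsSquare ((2 : ℕ) : ZMod q) ∧ 2 ≤ a ∧ 0 < b ∧
    m = 2 ^ a * q ^ b) ∨
  (∃ p q r a b d : ℕ, p.Prime ∧ q.Prime ∧ r.Prime ∧ ¬ IsSquare ((q : ℕ) : ZMod p) ∧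
    ¬ IsSquare ((r : ℕ) : ZMod q) ∧ ¬ IsSquare ((p : ℕ) : ZMod r) ∧
    (IsSquare ((r : ℕ) : ZMod p) ∨ IsSquare ((p : ℕ) : ZMod q) ∨ IsSquare ((q : ℕ) : ZMod r)) ∧
    0 < a ∧ 0 < b ∧ 0 < d ∧ (m = p ^ a * q ^ b * r ^ d ∨ m = 2 * (p ^ a * q ^ b * r ^ d)))

lemma two_aux {p q : ℕ} (hp : p.Prime) (hq : q.Prime) (hp2 : p ≠ 2) (hq2 : q ≠ 2) (hpq : p ≠ q)
    (hleg : ¬ IsSquare ((q : ℕ) : ZMod p)) {a b c m : ℕ} (ha : 0 < a) (hb : 0 < b)
    (hc : c = 1 ∨ c = 2) (hm : c * (p ^ a * q ^ b) = m) {s : Multiset (ZMod m)}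
    (hs : IsHodge m s) (hne : s ≠ 0)
    (hev : ∀ l : ℕ, l.Prime → l ≠ 2 → l ∣ m →
      Even (s.countP fun z => (addOrderOf z).primeFactors = {l})) :
    Generated m (fun _ => False) s := by
  have : Fact p.Prime := ⟨hp⟩
  have : Fact q.Prime := ⟨hq⟩
  have hcop : p.Coprime (c * q ^ b) := by
    apply Nat.Coprime.mul_right
    · rcases hc with rfl | rfl
      · exact Nat.coprime_one_right p
      · exact (Nat.coprime_primes hp Nat.prime_two).mpr hp2
    · exact ((Nat.coprime_primes hp hq).mpr hpq).pow_right b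
  have hpm : p ∣ m := by
    rw [← hm]
    exact ((dvd_pow_self p ha.ne').mul_right _).mul_left _
  refine structure_two hp2 hq2 hpq (leg_non hpq hleg) ha hb hc hm hs hne ?_
  rw [count_eq (M := c * q ^ b) (by rw [← hm]; ring) hp hcop hs.1]
  exact hev p hp hp2 hpm

lemma three_aux {p q r : ℕ} (hp : p.Prime) (hq : q.Prime) (hr : r.Prime) (hp2 : p ≠ 2)
    (hq2 : q ≠ 2) (hr2 : r ≠ 2) (hpq : p ≠ q) (hpr : p ≠ r) (hqr : q ≠ r)
    (n1 : ¬ IsSquare ((q : ℕ) : ZMod p)) (n2 : ¬ IsSquare ((r : ℕ) : ZMod q))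
    (n3 : ¬ IsSquare ((p : ℕ) : ZMod r)) (s1 : IsSquare ((r : ℕ) : ZMod p))
    {a b d c m : ℕ} (ha : 0 < a) (hb : 0 < b) (hd : 0 < d) (hc : c = 1 ∨ c = 2)
    (hm : c * (p ^ a * q ^ b * r ^ d) = m) {s : Multiset (ZMod m)}
    (hs : IsHodge m s) (hne : s ≠ 0)
    (hev : ∀ l : ℕ, l.Prime → l ≠ 2 → l ∣ m →
      Even (s.countP fun z => (addOrderOf z).primeFactors = {l})) :
    Generated m (fun _ => False) s := by
  have : Fact p.Prime := ⟨hp⟩
  have : Fact q.Prime := ⟨hq⟩
  have : Fact r.Prime := ⟨hr⟩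
  have c2 : ∀ l : ℕ, l.Prime → l ≠ 2 → l.Coprime c := by
    intro l hl hl2
    rcases hc with rfl | rfl
    · exact Nat.coprime_one_right l
    · exact (Nat.coprime_primes hl Nat.prime_two).mpr hl2
  have cpq : p.Coprime q := coprime_of_ne hpq
  have cpr : p.Coprime r := coprime_of_ne hpr
  have cqr : q.Coprime r := coprime_of_ne hqr
  have k1 : p ∣ m := by
    rw [← hm]
    exact (((dvd_pow_self p ha.ne').mul_right _).mul_right _).mul_left _
  have k2 : q ∣ m := by
    rw [← hm]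
    exact (((dvd_pow_self q hb.ne').mul_left _).mul_right _).mul_left _
  have k3 : r ∣ m := by
    rw [← hm]
    exact ((dvd_pow_self r hd.ne').mul_left _).mul_left _
  refine structure_three hp2 hq2 hr2 hpq hpr hqr (leg_non hpq n1) (leg_sq hpr s1) (leg_non hqr n2)
    (leg_non (fun h => hpr h.symm) n3) ha hb hd hc hm hs hne ?_ ?_ ?_
  · rw [count_eq (M := c * (q ^ b * r ^ d)) (by rw [← hm]; ring) hp
      (Nat.Coprime.mul_right (c2 p hp hp2) (Nat.Coprime.mul_right (cpq.pow_right b)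
        (cpr.pow_right d))) hs.1]
    exact hev p hp hp2 k1
  · rw [count_eq (M := c * (p ^ a * r ^ d)) (by rw [← hm]; ring) hq
      (Nat.Coprime.mul_right (c2 q hq hq2) (Nat.Coprime.mul_right (cpq.symm.pow_right a)
        (cqr.pow_right d))) hs.1]
    exact hev q hq hq2 k2
  · rw [count_eq (M := c * (p ^ a * q ^ b)) (by rw [← hm]; ring) hr
      (Nat.Coprime.mul_right (c2 r hr hr2) (Nat.Coprime.mul_right (cpr.symm.pow_right a)
        (cqr.symm.pow_right b))) hs.1]
    exact hev r hr hr2 k3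

theorem result {m : ℕ} (hm : ParityDegree m) {s : Multiset (ZMod m)} (hs : IsHodge m s)
    (hne : s ≠ 0) : Generated m (fun _ => False) s ↔
      ∀ l : ℕ, l.Prime → l ≠ 2 → l ∣ m →
        Even (s.countP fun z => (addOrderOf z).primeFactors = {l}) := by
  constructor
  · intro h l hl hl2 _
    have hm0 : m ≠ 0 := by
      rcases hm with ⟨p, q, a, b, hp, hq, -, -, -, -, -, -, hm⟩ | ⟨q, a, b, hq, -, -, -, -, hm⟩ |
        ⟨p, q, r, a, b, d, hp, hq, hr, -, -, -, -, -, -, -, hm⟩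
      · have := hp.pos; have := hq.pos
        rcases hm with h | h <;> rw [h] <;> positivity
      · have := hq.pos
        rw [hm]; positivity
      · have := hp.pos; have := hq.pos; have := hr.pos
        rcases hm with h | h <;> rw [h] <;> positivity
    have : NeZero m := ⟨hm0⟩
    exact even_of_gen hl hl2 hs.1 h
  · intro hev
    rcases hm with ⟨p, q, a, b, hp, hq, hp2, hq2, hpq, hsq, ha, hb, hm⟩ |
      ⟨q, a, b, hq, hq2, hsq, ha, hb, hm⟩ |
      ⟨p, q, r, a, b, d, hp, hq, hr, n1, n2, n3, s1, ha, hb, hd, hm⟩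
    · obtain ⟨c, hc, hcm⟩ : ∃ c : ℕ, (c = 1 ∨ c = 2) ∧ c * (p ^ a * q ^ b) = m := by
        rcases hm with h | h
        · exact ⟨1, Or.inl rfl, by rw [h, one_mul]⟩
        · exact ⟨2, Or.inr rfl, by rw [h]⟩
      by_cases hleg : IsSquare ((q : ℕ) : ZMod p)
      · have hleg2 : ¬ IsSquare ((p : ℕ) : ZMod q) := fun h => hsq ⟨hleg, h⟩
        exact two_aux hq hp hq2 hp2 hpq.symm hleg2 hb ha hc
          (by rw [← hcm, Nat.mul_comm (q ^ b) (p ^ a)]) hs hne hev
      · exact two_aux hp hq hp2 hq2 hpq hleg ha hb hc hcm hs hne hev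
    · have : Fact q.Prime := ⟨hq⟩
      have hcop : q.Coprime (2 ^ a) := ((Nat.coprime_primes hq Nat.prime_two).mpr hq2).pow_right a
      refine structure_four hq2 (leg_two hq2 hsq) ha hb hm.symm hs hne ?_
      rw [count_eq (M := 2 ^ a) (by rw [hm]; ring) hq hcop hs.1]
      exact hev q hq hq2 (by rw [hm]; exact (dvd_pow_self q hb.ne').mul_left _)
    · have two : ∀ n : ℕ, IsSquare ((n : ℕ) : ZMod 2) := by
        intro n
        generalize ((n : ℕ) : ZMod 2) = x
        revert x; decide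
      have self : ∀ n : ℕ, IsSquare ((n : ℕ) : ZMod n) := fun n => ⟨0, by simp⟩
      have hp2 : p ≠ 2 := by rintro rfl; exact n1 (two q)
      have hq2 : q ≠ 2 := by rintro rfl; exact n2 (two r)
      have hr2 : r ≠ 2 := by rintro rfl; exact n3 (two p)
      have hpq : p ≠ q := by rintro rfl; exact n1 (self p)
      have hqr : q ≠ r := by rintro rfl; exact n2 (self q)
      have hpr : p ≠ r := by rintro rfl; exact n3 (self p)
      obtain ⟨c, hc, hcm⟩ : ∃ c : ℕ, (c = 1 ∨ c = 2) ∧ c * (p ^ a * q ^ b * r ^ d) = m := by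
        rcases hm with h | h
        · exact ⟨1, Or.inl rfl, by rw [h, one_mul]⟩
        · exact ⟨2, Or.inr rfl, by rw [h]⟩
      rcases s1 with h | h | h
      · exact three_aux hp hq hr hp2 hq2 hr2 hpq hpr hqr n1 n2 n3 h ha hb hd hc hcm hs hne hev
      · exact three_aux hq hr hp hq2 hr2 hp2 hqr hpq.symm hpr.symm n2 n3 n1 h hb hd ha hc
          (by rw [← hcm]; ring) hs hne hev
      · exact three_aux hr hp hq hr2 hp2 hq2 hpr.symm hqr.symm hpq n3 n1 n2 h hd ha hb hc
          (by rw [← hcm]; ring) hs hne hev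

end Pool.Agent.Results.MP_b2b689_ag.FermatParities
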